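import Mathlib

set_option autoImplicit false

/-!
The group `K_0` of a unital *-ring.
-/

namespace Pool.Agent.QLam

open Matrix

/-- A projection in a matrix algebra over the *-ring `R`. -/
structure Proj (R : Type*) [Ring R] [StarRing R] where
  /-- size of the matrices -/
  n : ℕ
  /-- the projection -/
  p : Matrix (Fin n) (Fin n) R
  idem : p * p = p
  sa : pᴴ = p

variable {R : Type*} [Ring R] [StarRing R]

/-- Murray–von Neumann equivalence. -/
def Proj.Equiv (P Q : Proj R) : Prop :=
  ∃ v : Matrix (Fin Q.n) (Fin P.n) R, vᴴ * v = P.p ∧ v * vᴴ = Q.p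

theorem sum_idem (P Q : Proj R) :
    (Matrix.fromBlocks P.p 0 0 Q.p).submatrix finSumFinEquiv.symm finSumFinEquiv.symm *
      (Matrix.fromBlocks P.p 0 0 Q.p).submatrix finSumFinEquiv.symm finSumFinEquiv.symm =
    (Matrix.fromBlocks P.p 0 0 Q.p).submatrix finSumFinEquiv.symm finSumFinEquiv.symm := by
  rw [Matrix.submatrix_mul_equiv, Matrix.fromBlocks_multiply]
  simp [P.idem, Q.idem]

theorem sum_sa (P Q : Proj R) :
    ((Matrix.fromBlocks P.p 0 0 Q.p).submatrix finSumFinEquiv.symm finSumFinEquiv.symm)ᴴ =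
    (Matrix.fromBlocks P.p 0 0 Q.p).submatrix finSumFinEquiv.symm finSumFinEquiv.symm := by
  rw [Matrix.conjTranspose_submatrix, Matrix.fromBlocks_conjTranspose]
  simp [P.sa, Q.sa]

/-- The direct sum (block diagonal matrix). -/
def Proj.sum (P Q : Proj R) : Proj R where
  n := P.n + Q.n
  p := (Matrix.fromBlocks P.p 0 0 Q.p).submatrix finSumFinEquiv.symm finSumFinEquiv.symm
  idem := sum_idem P Q
  sa := sum_sa P Q

/-- The relations of `K_0`: `[P ⊕ Q] = [P] + [Q]`, and `[P] = [Q]` if `P` and `Q` are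
Murray–von Neumann equivalent. -/
def relK0 (R : Type*) [Ring R] [StarRing R] : Set (FreeAbelianGroup (Proj R)) :=
  {x | ∃ P Q : Proj R, x = FreeAbelianGroup.of (P.sum Q) -
    (FreeAbelianGroup.of P + FreeAbelianGroup.of Q)} ∪
  {x | ∃ P Q : Proj R, P.Equiv Q ∧ x = FreeAbelianGroup.of P - FreeAbelianGroup.of Q}

/-- `K_0(R)`: the Grothendieck group of the monoid of Murray–von Neumann equivalence classes of
projections in matrix algebras over `R`, given by generators and relations. -/
abbrev K0 (R : Type*) [Ring R] [StarRing R] : Type _ :=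
  FreeAbelianGroup (Proj R) ⧸ AddSubgroup.closure (relK0 R)

/-- The class of a projection in `K_0`. -/
def cls (P : Proj R) : K0 R := QuotientAddGroup.mk (FreeAbelianGroup.of P)

theorem unit_idem (R : Type*) [Ring R] [StarRing R] (n : ℕ) :
    (1 : Matrix (Fin n) (Fin n) R) * 1 = 1 := by simp

theorem unit_sa (R : Type*) [Ring R] [StarRing R] (n : ℕ) :
    (1 : Matrix (Fin n) (Fin n) R)ᴴ = 1 := by simp

/-- The unit of the `n × n` matrices. -/
def unitP (R : Type*) [Ring R] [StarRing R] (n : ℕ) : Proj R where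
  n := n
  p := 1
  idem := unit_idem R n
  sa := unit_sa R n

/-- The class `[1]_0` of the unit. -/
def unitClass (R : Type*) [Ring R] [StarRing R] : K0 R := cls (unitP R 1)

theorem cls_sum (P Q : Proj R) : cls (P.sum Q) = cls P + cls Q := by
  have h : FreeAbelianGroup.of (P.sum Q) - (FreeAbelianGroup.of P + FreeAbelianGroup.of Q) ∈
      AddSubgroup.closure (relK0 R) := AddSubgroup.subset_closure (Or.inl ⟨P, Q, rfl⟩)
  have h2 := (QuotientAddGroup.eq_zero_iff _).2 h
  have h3 : cls (P.sum Q) - (cls P + cls Q) = 0 := h2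
  exact sub_eq_zero.1 h3

theorem cls_eq {P Q : Proj R} (h : P.Equiv Q) : cls P = cls Q := by
  have h : FreeAbelianGroup.of P - FreeAbelianGroup.of Q ∈
      AddSubgroup.closure (relK0 R) := AddSubgroup.subset_closure (Or.inr ⟨P, Q, h, rfl⟩)
  have h2 := (QuotientAddGroup.eq_zero_iff _).2 h
  have h3 : cls P - cls Q = 0 := h2
  exact sub_eq_zero.1 h3

theorem unitP_sum (n m : ℕ) : (unitP R n).sum (unitP R m) = unitP R (n + m) := by
  unfold unitP Proj.sum
  simp only [Proj.mk.injEq, heq_eq_eq, true_and]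
  rw [Matrix.fromBlocks_one, Matrix.submatrix_one_equiv]

theorem cls_unitP (n : ℕ) : cls (unitP R n) = n • unitClass R := by
  induction n with
  | zero =>
    have h := cls_sum (unitP R 0) (unitP R 0)
    rw [unitP_sum] at h
    have h2 : cls (unitP R 0) = cls (unitP R 0) + cls (unitP R 0) := h
    rw [zero_smul]
    exact (left_eq_add.1 h2)
  | succ n ih =>
    rw [← unitP_sum, cls_sum, ih, succ_nsmul]
    rfl

/-- if the `n × n` and the `m × m` units are equivalent then `n [1]_0 = m [1]_0` -/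
theorem nsmul_eq {n m : ℕ} (v : Matrix (Fin n) (Fin m) R) (h1 : v * vᴴ = 1) (h2 : vᴴ * v = 1) :
    m • unitClass R = n • unitClass R := by
  rw [← cls_unitP, ← cls_unitP]
  exact cls_eq ⟨v, h2, h1⟩

end Pool.Agent.QLam
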