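import Pool.Agent.Lib_MP_b3c914_an.Defs

set_option autoImplicit false

/-!
The unit class of `Q^λ` has finite order.
-/

namespace Pool.Agent.QLam

open Matrix

variable {lam : ℝ} {h : 0 < lam}

/-- the part of the translation by `g⁻¹ k` from `[0,1)` to `[0,1)` -/
noncomputable def cut (g k : Aff lam h) : Opr lam h :=
  gen {x | x ∈ Set.Ico (0 : ℝ) 1 ∧ ((k⁻¹ * g : Aff lam h) : Equiv.Perm ℝ) x ∈ Set.Ico (0 : ℝ) 1}
    (g⁻¹ * k)

theorem cut_mem (g k : Aff lam h) : cut g k ∈ QSet lam h := by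
  refine ⟨gen (Set.Ico 0 1) (g⁻¹ * k), gen_mem (zero_mem _) (one_mem _) _, ?_⟩
  unfold proj cut
  rw [gen_mul, gen_mul]
  congr 1
  · ext x
    simp

theorem cut_star (g k : Aff lam h) : star (cut g k) = cut k g := by
  unfold cut
  rw [gen_star]
  congr 1
  · ext x
    simp only [Set.mem_ofPred_eq]
    have h1 : ((k⁻¹ * g : Aff lam h) : Equiv.Perm ℝ) (((g⁻¹ * k : Aff lam h) : Equiv.Perm ℝ) x) =
        x := by
      rw [← Equiv.Perm.mul_apply, ← Subgroup.coe_mul]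
      have : (k⁻¹ * g) * (g⁻¹ * k) = (1 : Aff lam h) := by group
      rw [this]
      simp
    rw [h1]
    exact and_comm

/-- products of the matrix entries -/
theorem cut_sum {n m : ℕ} (g : Fin n → Aff lam h) (k : Fin m → Aff lam h)
    (hg : ∀ i j, ∀ x, ((g i)⁻¹ : Aff lam h).1 x ∈ Set.Ico (0 : ℝ) 1 →
      ((g j)⁻¹ : Aff lam h).1 x ∈ Set.Ico (0 : ℝ) 1 → i = j)
    (hk : ∀ i j, ∀ x, ((k i)⁻¹ : Aff lam h).1 x ∈ Set.Ico (0 : ℝ) 1 →
      ((k j)⁻¹ : Aff lam h).1 x ∈ Set.Ico (0 : ℝ) 1 → i = j)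
    (hgk : ∀ x, (∃ i, ((g i)⁻¹ : Aff lam h).1 x ∈ Set.Ico (0 : ℝ) 1) →
      ∃ l, ((k l)⁻¹ : Aff lam h).1 x ∈ Set.Ico (0 : ℝ) 1) (i j : Fin n) :
    ∑ l, cut (g i) (k l) * star (cut (g j) (k l)) = if i = j then proj lam h else 0 := by
  have key : ∀ l, cut (g i) (k l) * star (cut (g j) (k l)) =
      gen {x | x ∈ Set.Ico (0 : ℝ) 1 ∧ (((k l)⁻¹ * g i : Aff lam h) : Equiv.Perm ℝ) x ∈
        Set.Ico (0 : ℝ) 1 ∧ (((g j)⁻¹ * g i : Aff lam h) : Equiv.Perm ℝ) x ∈ Set.Ico (0 : ℝ) 1}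
        ((g i)⁻¹ * g j) := by
    intro l
    rw [cut_star]
    unfold cut
    rw [gen_mul]
    congr 1
    · ext x
      simp only [Set.mem_ofPred_eq, _root_.mul_inv_rev, inv_inv]
      have h1 : (((g j)⁻¹ * k l : Aff lam h) : Equiv.Perm ℝ)
          ((((k l)⁻¹ * g i : Aff lam h) : Equiv.Perm ℝ) x) =
          (((g j)⁻¹ * g i : Aff lam h) : Equiv.Perm ℝ) x := by
        rw [← Equiv.Perm.mul_apply, ← Subgroup.coe_mul]
        have : ((g j)⁻¹ * k l) * ((k l)⁻¹ * g i) = (g j)⁻¹ * g i := by group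
        rw [this]
      rw [h1]
      tauto
    · group
  rw [Finset.sum_congr rfl fun l _ => key l]
  have hco : ∀ (a b : Aff lam h) (x : ℝ), ((a⁻¹ * b : Aff lam h) : Equiv.Perm ℝ) x =
      (a⁻¹ : Aff lam h).1 (b.1 x) := by
    intro a b x
    rw [Subgroup.coe_mul, Equiv.Perm.mul_apply]
  have hself : ∀ (b : Aff lam h) (x : ℝ), (b⁻¹ : Aff lam h).1 (b.1 x) = x := by
    intro b x
    rw [← hco, inv_mul_cancel]
    simp
  by_cases hij : i = j
  · subst hij
    rw [if_pos rfl, gen_sum (C := Set.Ico 0 1)]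
    · unfold proj
      rw [inv_mul_cancel]
    · intro l l' x h1 h2
      refine hk l l' ((g i).1 x) ?_ ?_
      · rw [← hco]; exact h1.2.1
      · rw [← hco]; exact h2.2.1
    · intro x
      constructor
      · intro hx
        obtain ⟨l, hl⟩ := hgk ((g i).1 x) ⟨i, by rw [hself]; exact hx⟩
        refine ⟨l, hx, by rw [hco]; exact hl, ?_⟩
        rw [hco, hself]
        exact hx
      · rintro ⟨l, hl⟩
        exact hl.1
  · rw [if_neg hij]
    refine Finset.sum_eq_zero fun l _ => gen_empty _ _ ?_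
    rintro x ⟨h1, _, h3⟩
    refine hij (hg i j ((g i).1 x) ?_ ?_)
    · rw [hself]; exact h1
    · rw [← hco]; exact h3

/-- two partitions of the same set into translates of `[0,1)` give `n [1] = m [1]` -/
theorem nsmul_of_partitions {A : Type*} [CStarAlgebra A] (hQ : IsQ A lam h) {n m : ℕ}
    (g : Fin n → Aff lam h) (k : Fin m → Aff lam h)
    (hg : ∀ i j, ∀ x, ((g i)⁻¹ : Aff lam h).1 x ∈ Set.Ico (0 : ℝ) 1 →
      ((g j)⁻¹ : Aff lam h).1 x ∈ Set.Ico (0 : ℝ) 1 → i = j)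
    (hk : ∀ i j, ∀ x, ((k i)⁻¹ : Aff lam h).1 x ∈ Set.Ico (0 : ℝ) 1 →
      ((k j)⁻¹ : Aff lam h).1 x ∈ Set.Ico (0 : ℝ) 1 → i = j)
    (hgk : ∀ x, (∃ i, ((g i)⁻¹ : Aff lam h).1 x ∈ Set.Ico (0 : ℝ) 1) ↔
      ∃ l, ((k l)⁻¹ : Aff lam h).1 x ∈ Set.Ico (0 : ℝ) 1) :
    m • unitClass A = n • unitClass A := by
  obtain ⟨φ, hφ, hr⟩ := hQ
  have h1 := map_one_eq φ hr
  have hv : ∀ i l, ∃ a : A, φ a = cut (g i) (k l) := by
    intro i l
    have : cut (g i) (k l) ∈ Set.range φ := by rw [hr]; exact cut_mem _ _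
    exact this
  choose v hv using hv
  refine nsmul_eq (Matrix.of v) ?_ ?_
  · ext i j
    apply hφ
    rw [Matrix.mul_apply, map_sum]
    have e := cut_sum g k hg hk (fun x => (hgk x).1) i j
    have e2 : ∀ l, φ (Matrix.of v i l * (Matrix.of v)ᴴ l j) =
        cut (g i) (k l) * star (cut (g j) (k l)) := by
      intro l
      rw [map_mul, Matrix.conjTranspose_apply, map_star, Matrix.of_apply, Matrix.of_apply, hv, hv]
    rw [Finset.sum_congr rfl fun l _ => e2 l, e, Matrix.one_apply]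
    split_ifs
    · exact h1.symm
    · exact (map_zero φ).symm
  · ext i j
    apply hφ
    rw [Matrix.mul_apply, map_sum]
    have e := cut_sum k g hk hg (fun x => (hgk x).2) i j
    have e2 : ∀ l, φ ((Matrix.of v)ᴴ i l * Matrix.of v l j) =
        cut (k i) (g l) * star (cut (k j) (g l)) := by
      intro l
      rw [map_mul, Matrix.conjTranspose_apply, map_star, Matrix.of_apply, Matrix.of_apply, hv, hv,
        cut_star, cut_star]
    rw [Finset.sum_congr rfl fun l _ => e2 l, e, Matrix.one_apply]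
    split_ifs
    · exact h1.symm
    · exact (map_zero φ).symm

end Pool.Agent.QLam
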