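import Pool.Agent.Lib_MP_b3c914_an.Ops
import Pool.Agent.Lib_MP_b3c914_an.KZero

set_option autoImplicit false

/-!
The C*-algebras `A^λ` and `Q^λ`.
-/

namespace Pool.Agent.QLam

/-- `Γ_λ`, the ring `ℤ[λ, λ⁻¹]`. -/
def Gam (lam : ℝ) : Subring ℝ := Subring.closure {lam, lam⁻¹}

theorem zpow_mem (lam : ℝ) (i : ℤ) : lam ^ i ∈ Gam lam := by
  have h1 : lam ∈ Gam lam := Subring.subset_closure (by simp)
  have h2 : lam⁻¹ ∈ Gam lam := Subring.subset_closure (by simp)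
  cases i with
  | ofNat n => simpa using pow_mem h1 n
  | negSucc n =>
    rw [zpow_negSucc, ← inv_pow]
    exact pow_mem h2 _

/-- the affine maps `x ↦ a + λ^i x` with `a ∈ Γ_λ`, `i ∈ ℤ` -/
def affSet (lam : ℝ) : Set (Equiv.Perm ℝ) :=
  {g | ∃ a ∈ Gam lam, ∃ i : ℤ, ∀ x, g x = a + lam ^ i * x}

theorem affSet_mul (lam : ℝ) (h : 0 < lam) {g g' : Equiv.Perm ℝ} (hg : g ∈ affSet lam)
    (hg' : g' ∈ affSet lam) : g * g' ∈ affSet lam := by
  obtain ⟨a, ha, i, hg⟩ := hg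
  obtain ⟨b, hb, j, hg'⟩ := hg'
  refine ⟨a + lam ^ i * b, add_mem ha (mul_mem (zpow_mem lam i) hb), i + j, fun x => ?_⟩
  rw [Equiv.Perm.mul_apply, hg', hg, zpow_add₀ h.ne']
  ring

theorem affSet_one (lam : ℝ) : 1 ∈ affSet lam := ⟨0, zero_mem _, 0, fun x => by simp⟩

theorem affSet_inv (lam : ℝ) (h : 0 < lam) {g : Equiv.Perm ℝ} (hg : g ∈ affSet lam) :
    g⁻¹ ∈ affSet lam := by
  obtain ⟨a, ha, i, hg⟩ := hg
  refine ⟨-(lam ^ (-i) * a), neg_mem (mul_mem (zpow_mem lam _) ha), -i, fun x => ?_⟩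
  rw [Equiv.Perm.inv_eq_iff_eq, hg]
  have h1 : lam ^ i * lam ^ (-i) = 1 := by
    rw [← zpow_add₀ h.ne', add_neg_cancel, zpow_zero]
  linear_combination (a - x) * h1

/-- `G_λ = Γ_λ ⋊ ⟨λ⟩`, as the group of the affine maps `x ↦ a + λ^i x` with `a ∈ Γ_λ`, `i ∈ ℤ`. -/
def Aff (lam : ℝ) (h : 0 < lam) : Subgroup (Equiv.Perm ℝ) where
  carrier := affSet lam
  mul_mem' := affSet_mul lam h
  one_mem' := affSet_one lam
  inv_mem' := affSet_inv lam h

/-- The bounded operators on the Hilbert space `ℓ²(G_λ × ℝ) = ℓ²(G_λ, ℓ²(ℝ))`. -/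
abbrev Opr (lam : ℝ) (h : 0 < lam) : Type := BH (Aff lam h × ℝ)

/-- The left translation by `g⁻¹` on `G_λ × ℝ`. -/
def lmul {lam : ℝ} {h : 0 < lam} (g : Aff lam h) : (Aff lam h × ℝ) ≃ (Aff lam h × ℝ) :=
  (Equiv.mulLeft g⁻¹).prodCongr (Equiv.refl ℝ)

/-- The operator `π(1_B) λ_g` of the regular representation of the crossed product:
`(π(1_B) λ_g ξ)(k, x) = 1_B(k x) ξ(g⁻¹ k, x)`. -/
noncomputable def gen {lam : ℝ} {h : 0 < lam} (B : Set ℝ) (g : Aff lam h) :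
    Opr lam h := op (lmul g) {p | (p.1 : Equiv.Perm ℝ) p.2 ∈ B}

/-- The (reduced) crossed product `A^λ`: the C*-algebra generated by the operators
`π(1_[a,b)) λ_g` with `a < b` in `Γ_λ` and `g ∈ G_λ`. -/
noncomputable def Alg (lam : ℝ) (h : 0 < lam) :
    NonUnitalStarSubalgebra ℂ (Opr lam h) :=
  (NonUnitalStarAlgebra.adjoin ℂ {T | ∃ a ∈ Gam lam, ∃ b ∈ Gam lam, a < b ∧
    ∃ g : Aff lam h, T = gen (Set.Ico a b) g}).topologicalClosure

/-- The projection `e = 1_[0,1)`. -/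
noncomputable def proj (lam : ℝ) (h : 0 < lam) : Opr lam h :=
  gen (Set.Ico 0 1) 1

/-- `Q^λ = e A^λ e`. -/
def QSet (lam : ℝ) (h : 0 < lam) : Set (Opr lam h) :=
  {T | ∃ a ∈ Alg lam h, T = proj lam h * a * proj lam h}

/-- The unital C*-algebra `A` is isomorphic to `Q^λ`: there is an injective *-homomorphism of `A`
onto `e A^λ e`. -/
def IsQ (A : Type*) [CStarAlgebra A] (lam : ℝ) (h : 0 < lam) : Prop :=
  ∃ φ : A →⋆ₙₐ[ℂ] (Opr lam h), Function.Injective φ ∧ Set.range φ = QSet lam h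

/-! ### Rules for the generators -/

variable {lam : ℝ} {h : 0 < lam}

theorem gen_mul (B C : Set ℝ) (g k : Aff lam h) :
    gen B g * gen C k = gen {x | x ∈ B ∧ ((g⁻¹ : Aff lam h) : Equiv.Perm ℝ) x ∈ C} (g * k) := by
  unfold gen
  rw [op_mul]
  refine op_eq _ _ _ _ ?_ ?_
  · ext ⟨u, x⟩
    simp only [lmul, Set.mem_inter_iff, Set.mem_setOf_eq, Set.mem_preimage,
      Equiv.prodCongr_apply, Prod.map_apply, Equiv.coe_mulLeft, Equiv.refl_apply,
      Subgroup.coe_mul, Equiv.Perm.mul_apply]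
  · rintro ⟨u, x⟩ _
    simp only [lmul, Equiv.trans_apply, Equiv.prodCongr_apply, Prod.map_apply,
      Equiv.coe_mulLeft, Equiv.refl_apply]
    rw [mul_inv_rev, mul_assoc]

theorem gen_star (B : Set ℝ) (g : Aff lam h) :
    star (gen B g) = gen {x | (g : Equiv.Perm ℝ) x ∈ B} g⁻¹ := by
  unfold gen
  rw [op_adjoint]
  refine op_eq _ _ _ _ ?_ ?_
  · ext ⟨u, x⟩
    simp only [lmul, Set.mem_setOf_eq, Set.mem_preimage, Equiv.prodCongr_symm,
      Equiv.prodCongr_apply, Prod.map_apply, Equiv.mulLeft_symm, inv_inv, Equiv.coe_mulLeft,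
      Equiv.refl_symm, Equiv.refl_apply, Subgroup.coe_mul, Equiv.Perm.mul_apply]
  · rintro ⟨u, x⟩ _
    simp only [lmul, Equiv.prodCongr_symm, Equiv.prodCongr_apply, Prod.map_apply,
      Equiv.mulLeft_symm, inv_inv, Equiv.coe_mulLeft, Equiv.refl_symm, Equiv.refl_apply]

theorem gen_empty (g : Aff lam h) (B : Set ℝ) (hB : ∀ x, x ∉ B) : gen B g = 0 := by
  have : B = ∅ := Set.eq_empty_iff_forall_notMem.2 hB
  subst this
  exact op_empty _

theorem gen_sum {κ : Type} [Fintype κ] (g : Aff lam h) (B : κ → Set ℝ) (C : Set ℝ)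
    (hd : ∀ i j, ∀ x, x ∈ B i → x ∈ B j → i = j) (hC : ∀ x, x ∈ C ↔ ∃ i, x ∈ B i) :
    ∑ k, gen (B k) g = gen C g :=
  op_sum _ _ _ (fun i j x hi hj => hd i j _ hi hj) (fun x => hC _)

theorem gen_mem {a b : ℝ} (ha : a ∈ Gam lam) (hb : b ∈ Gam lam) (g : Aff lam h) :
    gen (Set.Ico a b) g ∈ Alg lam h := by
  by_cases hab : a < b
  · exact NonUnitalStarSubalgebra.le_topologicalClosure _
      (NonUnitalStarAlgebra.subset_adjoin ℂ _ ⟨a, ha, b, hb, hab, g, rfl⟩)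
  · rw [gen_empty g _ (by
      intro x hx
      exact hab (hx.1.trans_lt hx.2))]
    exact zero_mem _

theorem proj_mul_self : proj lam h * proj lam h = proj lam h := by
  unfold proj
  rw [gen_mul]
  congr 1
  ext x
  simp

theorem proj_mem_QSet : proj lam h ∈ QSet lam h :=
  ⟨proj lam h, gen_mem (zero_mem _) (one_mem _) 1, by rw [proj_mul_self, proj_mul_self]⟩

/-- the image of the unit -/
theorem map_one_eq {A : Type*} [CStarAlgebra A] (φ : A →⋆ₙₐ[ℂ] (Opr lam h))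
    (hr : Set.range φ = QSet lam h) : φ 1 = proj lam h := by
  obtain ⟨a, ha⟩ : proj lam h ∈ Set.range φ := by rw [hr]; exact proj_mem_QSet
  have h1 : φ 1 * proj lam h = proj lam h := by rw [← ha, ← map_mul, one_mul]
  obtain ⟨b, _, hb⟩ : φ 1 ∈ QSet lam h := by rw [← hr]; exact ⟨1, rfl⟩
  have h2 : φ 1 * proj lam h = φ 1 := by
    rw [hb, mul_assoc (proj lam h * b), proj_mul_self]
  rw [← h1, h2]

end Pool.Agent.QLam
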