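import Pool.Agent.Lib_MP_b3c914_an.Torsion

set_option autoImplicit false

/-!
The case `λ = 1`: `Q^1 = ℂ`.
-/

namespace Pool.Agent.QLam

open scoped Pointwise

variable {h : (0 : ℝ) < 1}

theorem gam_one {x : ℝ} (hx : x ∈ Gam 1) : ∃ n : ℤ, x = n := by
  have h1 : Gam 1 ≤ (Int.castRingHom ℝ).range := by
    unfold Gam
    rw [Subring.closure_le]
    intro y hy
    refine ⟨1, ?_⟩
    rcases hy with rfl | hy
    · simp
    · rw [Set.mem_singleton_iff.1 hy]; simp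
  obtain ⟨n, hn⟩ := h1 hx
  exact ⟨n, by rw [← hn]; simp⟩

theorem aff_one (g : Aff 1 h) : ∃ a ∈ Gam 1, ∀ x, g.1 x = a + x := by
  obtain ⟨a, ha, i, hg⟩ := g.2
  exact ⟨a, ha, fun x => by rw [hg, one_zpow, one_mul]⟩

theorem max_mem' {lam a b : ℝ} (ha : a ∈ Gam lam) (hb : b ∈ Gam lam) : max a b ∈ Gam lam := by
  rcases max_choice a b with e | e <;> rw [e] <;> assumption

theorem min_mem' {lam a b : ℝ} (ha : a ∈ Gam lam) (hb : b ∈ Gam lam) : min a b ∈ Gam lam := by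
  rcases min_choice a b with e | e <;> rw [e] <;> assumption

/-- all generators -/
def gset (h : (0 : ℝ) < 1) : Set (Opr 1 h) :=
  {T | ∃ a ∈ Gam 1, ∃ b ∈ Gam 1, ∃ g : Aff 1 h, T = gen (Set.Ico a b) g}

theorem gset_mul {S T : Opr 1 h} (hS : S ∈ gset h) (hT : T ∈ gset h) :
    S * T ∈ gset h := by
  obtain ⟨a, ha, b, hb, g, rfl⟩ := hS
  obtain ⟨c, hc, d, hd, k, rfl⟩ := hT
  obtain ⟨r, hr, hg⟩ := aff_one g⁻¹
  refine ⟨max a (c - r), max_mem' ha (sub_mem hc hr), min b (d - r),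
    min_mem' hb (sub_mem hd hr), g * k, ?_⟩
  rw [gen_mul]
  congr 1
  ext x
  simp only [Set.mem_ofPred_eq, Set.mem_Ico, hg, max_le_iff, lt_min_iff]
  constructor
  · rintro ⟨⟨p1, p2⟩, p3, p4⟩
    refine ⟨⟨p1, by linarith⟩, p2, by linarith⟩
  · rintro ⟨⟨p1, p2⟩, p3, p4⟩
    refine ⟨⟨p1, p3⟩, by linarith, by linarith⟩

theorem gset_star {S : Opr 1 h} (hS : S ∈ gset h) : star S ∈ gset h := by
  obtain ⟨a, ha, b, hb, g, rfl⟩ := hS
  obtain ⟨r, hr, hg⟩ := aff_one g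
  refine ⟨a - r, sub_mem ha hr, b - r, sub_mem hb hr, g⁻¹, ?_⟩
  rw [gen_star]
  congr 1
  ext x
  simp only [Set.mem_ofPred_eq, Set.mem_Ico, hg]
  constructor
  · rintro ⟨p1, p2⟩
    constructor <;> linarith
  · rintro ⟨p1, p2⟩
    constructor <;> linarith

/-- the span of the generators -/
def spanAlg (h : (0 : ℝ) < 1) : NonUnitalStarSubalgebra ℂ (Opr 1 h) where
  carrier := Submodule.span ℂ (gset h)
  add_mem' := fun hx hy => add_mem hx hy
  zero_mem' := zero_mem _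
  smul_mem' := fun c _ hx => Submodule.smul_mem _ c hx
  mul_mem' := by
    intro x y hx hy
    have h1 : x * y ∈ Submodule.span ℂ (gset h) * Submodule.span ℂ (gset h) :=
      Submodule.mul_mem_mul hx hy
    rw [Submodule.span_mul_span] at h1
    refine Submodule.span_mono ?_ h1
    rintro _ ⟨s, hs, t, ht, rfl⟩
    exact gset_mul hs ht
  star_mem' := by
    intro x hx
    refine Submodule.span_induction (p := fun y _ => star y ∈ Submodule.span ℂ (gset h))
      ?_ ?_ ?_ ?_ hx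
    · intro y hy
      exact Submodule.subset_span (gset_star hy)
    · rw [star_zero]; exact zero_mem _
    · intro y z _ _ hy hz
      rw [star_add]; exact add_mem hy hz
    · intro c y _ hy
      rw [star_smul]; exact Submodule.smul_mem _ _ hy

theorem cornerGen {T : Opr 1 h} (hT : T ∈ gset h) :
    proj 1 h * T * proj 1 h ∈ Submodule.span ℂ {proj 1 h} := by
  obtain ⟨a, ha, b, hb, g, rfl⟩ := hT
  obtain ⟨r, hr, hg⟩ := aff_one g⁻¹
  obtain ⟨n, rfl⟩ := gam_one hr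
  obtain ⟨p, rfl⟩ := gam_one ha
  obtain ⟨q, rfl⟩ := gam_one hb
  unfold proj
  rw [gen_mul, gen_mul]
  by_cases hn : n = 0
  · subst hn
    have hg1 : g = 1 := by
      rw [← inv_inj, inv_one]
      apply Subtype.ext
      ext x
      rw [hg]
      simp
    subst hg1
    by_cases hpq : p ≤ 0 ∧ 0 < q
    · refine Submodule.mem_span_singleton.2 ⟨1, ?_⟩
      rw [one_smul, mul_one, mul_one]
      congr 1
      ext x
      have h1 : (p : ℝ) ≤ 0 := by exact_mod_cast hpq.1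
      have h2 : (1 : ℝ) ≤ q := by exact_mod_cast hpq.2
      simp only [inv_one, mul_one, Set.mem_ofPred_eq, Set.mem_Ico, OneMemClass.coe_one,
        Equiv.Perm.coe_one, id]
      constructor
      · rintro ⟨p1, p2⟩
        refine ⟨⟨⟨p1, p2⟩, by linarith, by linarith⟩, p1, p2⟩
      · rintro ⟨⟨⟨p1, p2⟩, _⟩, _⟩
        exact ⟨p1, p2⟩
    · rw [gen_empty _ {x | x ∈ {x | x ∈ Set.Ico (0 : ℝ) 1 ∧
        (((1 : Aff 1 h)⁻¹ : Aff 1 h) : Equiv.Perm ℝ) x ∈ Set.Ico (p : ℝ) q} ∧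
        (((1 * 1 : Aff 1 h)⁻¹ : Aff 1 h) : Equiv.Perm ℝ) x ∈ Set.Ico (0 : ℝ) 1}]
      · exact Submodule.zero_mem _
      · intro x hx
        simp only [inv_one, mul_one, Set.mem_ofPred_eq, Set.mem_Ico, OneMemClass.coe_one,
          Equiv.Perm.coe_one, id] at hx
        obtain ⟨⟨⟨p1, p2⟩, p3, p4⟩, _⟩ := hx
        apply hpq
        constructor
        · have : (p : ℝ) < 1 := by linarith
          have : p < 1 := by exact_mod_cast this
          omega
        · have : (0 : ℝ) < q := by linarith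
          exact_mod_cast this
  · rw [gen_empty _ {x | x ∈ {x | x ∈ Set.Ico (0 : ℝ) 1 ∧
        (((1 : Aff 1 h)⁻¹ : Aff 1 h) : Equiv.Perm ℝ) x ∈ Set.Ico (p : ℝ) q} ∧
        (((1 * g : Aff 1 h)⁻¹ : Aff 1 h) : Equiv.Perm ℝ) x ∈ Set.Ico (0 : ℝ) 1}]
    · exact Submodule.zero_mem _
    · intro x hx
      simp only [one_mul, Set.mem_ofPred_eq, Set.mem_Ico] at hx
      obtain ⟨⟨⟨p1, p2⟩, _⟩, p5, p6⟩ := hx
      rw [hg] at p5 p6
      apply hn
      have h1 : (n : ℝ) < 1 := by linarith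
      have h2 : (-1 : ℝ) < n := by linarith
      have h3 : n < 1 := by exact_mod_cast h1
      have h4 : -1 < n := by exact_mod_cast h2
      omega

theorem corner_mem {T : Opr 1 h} (hT : T ∈ QSet 1 h) :
    T ∈ Submodule.span ℂ {proj 1 h} := by
  obtain ⟨a, ha, rfl⟩ := hT
  have h1 : a ∈ closure ((NonUnitalStarAlgebra.adjoin ℂ {T | ∃ a ∈ Gam 1, ∃ b ∈ Gam 1, a < b ∧
    ∃ g : Aff 1 h, T = gen (Set.Ico a b) g} : NonUnitalStarSubalgebra ℂ _) :
      Set (Opr 1 h)) := ha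
  have hc : IsClosed {T : Opr 1 h |
      proj 1 h * T * proj 1 h ∈ Submodule.span ℂ {proj 1 h}} := by
    have hcl : IsClosed ((Submodule.span ℂ {proj 1 h} : Submodule ℂ _) :
      Set (Opr 1 h)) := Submodule.closed_of_finiteDimensional _
    exact hcl.preimage (by fun_prop)
  refine closure_minimal ?_ hc h1
  intro T hT
  have h2 : NonUnitalStarAlgebra.adjoin ℂ {T | ∃ a ∈ Gam 1, ∃ b ∈ Gam 1, a < b ∧
      ∃ g : Aff 1 h, T = gen (Set.Ico a b) g} ≤ spanAlg h := by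
    refine NonUnitalStarAlgebra.adjoin_le ?_
    rintro S ⟨a, ha, b, hb, _, g, rfl⟩
    exact Submodule.subset_span ⟨a, ha, b, hb, g, rfl⟩
  have h3 : T ∈ Submodule.span ℂ (gset h) := h2 hT
  show proj 1 h * T * proj 1 h ∈ Submodule.span ℂ {proj 1 h}
  refine Submodule.span_induction
    (p := fun T _ => proj 1 h * T * proj 1 h ∈ Submodule.span ℂ {proj 1 h}) ?_ ?_ ?_ ?_ h3
  · intro y hy
    exact cornerGen hy
  · rw [mul_zero, zero_mul]; exact zero_mem _
  · intro y z _ _ hy hz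
    rw [mul_add, add_mul]; exact add_mem hy hz
  · intro c y _ hy
    rw [mul_smul_comm, smul_mul_assoc]; exact Submodule.smul_mem _ _ hy

/-- `Q^1` consists of the multiples of the unit -/
theorem one_case {A : Type*} [CStarAlgebra A] (hQ : IsQ A 1 h) (a : A) :
    ∃ c : ℂ, a = c • (1 : A) := by
  obtain ⟨φ, hφ, hr⟩ := hQ
  have h1 : φ a ∈ QSet 1 h := by rw [← hr]; exact ⟨a, rfl⟩
  obtain ⟨c, hc⟩ := Submodule.mem_span_singleton.1 (corner_mem h1)
  refine ⟨c, hφ ?_⟩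
  rw [map_smul, map_one_eq φ hr, hc]

end Pool.Agent.QLam
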