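import Mathlib

set_option autoImplicit false

/-!
Partial permutation operators on `ℓ²(ι)`.
-/

namespace Pool.Agent.QLam

open scoped ENNReal InnerProductSpace

/-- `ℓ²(ι)`. -/
abbrev L2 (ι : Type) : Type := lp (fun _ : ι => ℂ) 2

theorem two_pos : (0 : ℝ) < (2 : ℝ≥0∞).toReal := by norm_num

theorem memℓp_ind {ι : Type} (φ : ι ≃ ι) (S : Set ι) (ξ : L2 ι) :
    Memℓp (E := fun _ : ι => ℂ) (S.indicator (fun i => ξ (φ i))) 2 := by
  have h1 : Summable fun i => ‖ξ i‖ ^ (2 : ℝ≥0∞).toReal := (lp.memℓp ξ).summable two_pos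
  have h2 : Summable fun i => ‖ξ (φ i)‖ ^ (2 : ℝ≥0∞).toReal :=
    (φ.summable_iff (f := fun i => ‖ξ i‖ ^ (2 : ℝ≥0∞).toReal)).2 h1
  refine memℓp_gen (h2.of_nonneg_of_le (fun i => by positivity) fun i => ?_)
  by_cases hi : i ∈ S
  · rw [Set.indicator_of_mem hi]
  · rw [Set.indicator_of_notMem hi, norm_zero, Real.zero_rpow two_pos.ne']
    positivity

/-- The vector `i ↦ ξ (φ i)` for `i ∈ S`, and `0` otherwise. -/
noncomputable def opFun {ι : Type} (φ : ι ≃ ι) (S : Set ι) (ξ : L2 ι) : L2 ι :=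
  ⟨S.indicator (fun i => ξ (φ i)), memℓp_ind φ S ξ⟩

theorem opFun_add {ι : Type} (φ : ι ≃ ι) (S : Set ι) (ξ η : L2 ι) :
    opFun φ S (ξ + η) = opFun φ S ξ + opFun φ S η := by
  unfold opFun
  ext i
  by_cases hi : i ∈ S <;> simp [hi]

theorem opFun_smul {ι : Type} (φ : ι ≃ ι) (S : Set ι) (c : ℂ) (ξ : L2 ι) :
    opFun φ S (c • ξ) = c • opFun φ S ξ := by
  unfold opFun
  ext i
  by_cases hi : i ∈ S <;> simp [hi]

theorem opFun_norm {ι : Type} (φ : ι ≃ ι) (S : Set ι) (ξ : L2 ι) :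
    ‖opFun φ S ξ‖ ≤ 1 * ‖ξ‖ := by
  rw [one_mul]
  have h1 : Summable fun i => ‖ξ i‖ ^ (2 : ℝ≥0∞).toReal := (lp.memℓp ξ).summable two_pos
  have h2 : Summable fun i => ‖ξ (φ i)‖ ^ (2 : ℝ≥0∞).toReal :=
    (φ.summable_iff (f := fun i => ‖ξ i‖ ^ (2 : ℝ≥0∞).toReal)).2 h1
  refine lp.norm_le_of_tsum_le two_pos (norm_nonneg _) ?_
  rw [lp.norm_rpow_eq_tsum two_pos ξ,
    ← φ.tsum_eq (fun i => ‖ξ i‖ ^ (2 : ℝ≥0∞).toReal)]
  have h3 : ∀ i, ‖S.indicator (fun i => ξ (φ i)) i‖ ^ (2 : ℝ≥0∞).toReal ≤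
      ‖ξ (φ i)‖ ^ (2 : ℝ≥0∞).toReal := by
    intro i
    by_cases hi : i ∈ S
    · rw [Set.indicator_of_mem hi]
    · rw [Set.indicator_of_notMem hi, norm_zero, Real.zero_rpow two_pos.ne']
      positivity
  exact (h2.of_nonneg_of_le (fun i => by positivity) h3).tsum_le_tsum h3 h2

/-- The operator `(T ξ)(i) = ξ (φ i)` if `i ∈ S`, and `0` otherwise. -/
noncomputable def opC {ι : Type} (φ : ι ≃ ι) (S : Set ι) : L2 ι →L[ℂ] L2 ι :=
  LinearMap.mkContinuous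
    { toFun := opFun φ S
      map_add' := opFun_add φ S
      map_smul' := opFun_smul φ S }
    1 (opFun_norm φ S)

theorem opC_apply {ι : Type} (φ : ι ≃ ι) (S : Set ι) (ξ : L2 ι) (i : ι) :
    (opC φ S ξ) i = S.indicator (fun i => ξ (φ i)) i := rfl

theorem opC_mul {ι : Type} (φ ψ : ι ≃ ι) (S T : Set ι) :
    opC φ S * opC ψ T = opC (φ.trans ψ) (S ∩ φ ⁻¹' T) := by
  ext ξ i
  show (opC φ S (opC ψ T ξ)) i = _
  rw [opC_apply, opC_apply]
  by_cases hi : i ∈ S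
  · by_cases hj : φ i ∈ T
    · simp [hi, hj, opC_apply]
    · simp [hi, hj, opC_apply]
  · simp [hi]

theorem opC_adjoint {ι : Type} (φ : ι ≃ ι) (S : Set ι) :
    star (opC φ S) = opC φ.symm (φ.symm ⁻¹' S) := by
  rw [ContinuousLinearMap.star_eq_adjoint]
  symm
  rw [ContinuousLinearMap.eq_adjoint_iff]
  intro x y
  rw [lp.inner_eq_tsum, lp.inner_eq_tsum, ← φ.tsum_eq]
  refine tsum_congr fun i => ?_
  rw [opC_apply, opC_apply]
  by_cases hi : i ∈ S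
  · simp [hi]
  · simp [hi]

theorem opC_eq {ι : Type} (φ ψ : ι ≃ ι) (S T : Set ι) (h : S = T)
    (h' : ∀ i ∈ S, φ i = ψ i) : opC φ S = opC ψ T := by
  subst h
  ext ξ i
  rw [opC_apply, opC_apply]
  by_cases hi : i ∈ S
  · simp [hi, h' i hi]
  · simp [hi]

theorem opC_empty {ι : Type} (φ : ι ≃ ι) : opC φ ∅ = 0 := by
  ext ξ i
  rw [opC_apply]
  simp

/-- additivity in the set -/
theorem opC_sum {ι κ : Type} [Fintype κ] (φ : ι ≃ ι) (S : κ → Set ι) (T : Set ι)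
    (hd : ∀ i j, ∀ x, x ∈ S i → x ∈ S j → i = j) (hT : ∀ x, x ∈ T ↔ ∃ i, x ∈ S i) :
    ∑ k, opC φ (S k) = opC φ T := by
  classical
  ext ξ i
  rw [opC_apply]
  have h1 : (∑ k, opC φ (S k)) ξ = ∑ k, opC φ (S k) ξ := by
    rw [ContinuousLinearMap.sum_apply]
  rw [h1, lp.coeFn_sum, Finset.sum_apply]
  by_cases hi : i ∈ T
  · obtain ⟨k, hk⟩ := (hT i).1 hi
    rw [Set.indicator_of_mem hi, Finset.sum_eq_single k]
    · rw [opC_apply, Set.indicator_of_mem hk]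
    · intro l _ hl
      rw [opC_apply, Set.indicator_of_notMem]
      intro h
      exact hl (hd _ _ _ h hk)
    · intro h
      exact absurd (Finset.mem_univ k) h
  · rw [Set.indicator_of_notMem hi]
    refine Finset.sum_eq_zero fun k _ => ?_
    rw [opC_apply, Set.indicator_of_notMem]
    intro h
    exact hi ((hT i).2 ⟨k, h⟩)

/-- The C*-algebra of all bounded operators on the Hilbert space `ℓ²(ι)`. -/
def BH (ι : Type) : Type := L2 ι →L[ℂ] L2 ι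

/-- Mathlib's structure of a C*-algebra on the bounded operators. -/
noncomputable def cstar (ι : Type) : CStarAlgebra (L2 ι →L[ℂ] L2 ι) := inferInstance

noncomputable instance instBH (ι : Type) : CStarAlgebra (BH ι) := cstar ι

/-- The operator `(T ξ)(i) = ξ (φ i)` if `i ∈ S`, and `0` otherwise. -/
noncomputable def op {ι : Type} (φ : ι ≃ ι) (S : Set ι) : BH ι := opC φ S

theorem op_mul {ι : Type} (φ ψ : ι ≃ ι) (S T : Set ι) :
    op φ S * op ψ T = op (φ.trans ψ) (S ∩ φ ⁻¹' T) := opC_mul φ ψ S T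

theorem op_adjoint {ι : Type} (φ : ι ≃ ι) (S : Set ι) :
    star (op φ S) = op φ.symm (φ.symm ⁻¹' S) := opC_adjoint φ S

theorem op_eq {ι : Type} (φ ψ : ι ≃ ι) (S T : Set ι) (h : S = T)
    (h' : ∀ i ∈ S, φ i = ψ i) : op φ S = op ψ T := opC_eq φ ψ S T h h'

theorem op_empty {ι : Type} (φ : ι ≃ ι) : op φ ∅ = 0 := opC_empty φ

theorem op_sum {ι κ : Type} [Fintype κ] (φ : ι ≃ ι) (S : κ → Set ι) (T : Set ι)
    (hd : ∀ i j, ∀ x, x ∈ S i → x ∈ S j → i = j) (hT : ∀ x, x ∈ T ↔ ∃ i, x ∈ S i) :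
    ∑ k, op φ (S k) = op φ T := opC_sum φ S T hd hT

end Pool.Agent.QLam
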