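import Pool.Agent.Lib_MP_b3c914_an.Main

set_option autoImplicit false

/-!
Partitions of intervals into affine images of `[0,1)`, and the order of the unit class.
-/

namespace Pool.Agent.QLam

open Polynomial

variable {lam : ℝ}

/-- the affine map `x ↦ a + λ^i x` -/
noncomputable def aff (h : 0 < lam) (a : ℝ) (ha : a ∈ Gam lam) (i : ℤ) : Aff lam h :=
  ⟨{ toFun := fun x => a + lam ^ i * x
     invFun := fun x => (lam ^ i)⁻¹ * (x - a)
     left_inv := fun x => by
       have := zpow_pos h i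
       field_simp
       ring
     right_inv := fun x => by
       have := zpow_pos h i
       field_simp
       ring }, a, ha, i, fun _ => rfl⟩

theorem aff_inv_mem {h : 0 < lam} (a : ℝ) (ha : a ∈ Gam lam) (i : ℤ) (x : ℝ) :
    ((aff h a ha i)⁻¹ : Aff lam h).1 x ∈ Set.Ico (0 : ℝ) 1 ↔ a ≤ x ∧ x < a + lam ^ i := by
  have hp := zpow_pos h i
  have e : ((aff h a ha i)⁻¹ : Aff lam h).1 x = (lam ^ i)⁻¹ * (x - a) := rfl
  rw [e, Set.mem_Ico]
  have h2 : 0 ≤ (lam ^ i)⁻¹ * (x - a) ↔ 0 ≤ x - a := by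
    constructor
    · intro h3
      by_contra hc
      push Not at hc
      exact absurd h3 (not_le.2 (mul_neg_of_pos_of_neg (inv_pos.2 hp) hc))
    · intro h3
      positivity
  have h3 : (lam ^ i)⁻¹ * (x - a) < 1 ↔ x - a < lam ^ i := by
    rw [inv_mul_lt_iff₀ hp, mul_one]
  rw [h2, h3]
  constructor
  · rintro ⟨p, q⟩
    constructor <;> linarith
  · rintro ⟨p, q⟩
    constructor <;> linarith

/-- partial sums -/
noncomputable def ps (lam : ℝ) (u : ℕ → ℤ) (m : ℕ) : ℝ := ∑ j ∈ Finset.range m, lam ^ u j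

theorem ps_mem (u : ℕ → ℤ) (m : ℕ) : ps lam u m ∈ Gam lam :=
  sum_mem fun _ _ => zpow_mem _ _

theorem ps_succ (u : ℕ → ℤ) (m : ℕ) : ps lam u (m + 1) = ps lam u m + lam ^ u m := by
  unfold ps
  rw [Finset.sum_range_succ]

theorem ps_mono (h : 0 < lam) (u : ℕ → ℤ) : Monotone (ps lam u) := by
  refine monotone_nat_of_le_succ fun m => ?_
  rw [ps_succ]
  have := zpow_pos h (u m)
  linarith

/-- the cells cover the interval -/
theorem cover (h : 0 < lam) (u : ℕ → ℤ) (n : ℕ) (x : ℝ) :
    (∃ k : Fin n, ps lam u k ≤ x ∧ x < ps lam u k + lam ^ u k) ↔ 0 ≤ x ∧ x < ps lam u n := by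
  have h0 : ps lam u 0 = 0 := by simp [ps]
  constructor
  · rintro ⟨k, h1, h2⟩
    rw [← ps_succ] at h2
    have h3 := ps_mono h u (Nat.zero_le (k : ℕ))
    have h4 := ps_mono h u (show (k : ℕ) + 1 ≤ n from k.2)
    rw [h0] at h3
    exact ⟨h3.trans h1, h2.trans_le h4⟩
  · rintro ⟨h1, h2⟩
    induction n with
    | zero => rw [h0] at h2; linarith
    | succ n ih =>
      rcases lt_or_ge x (ps lam u n) with h3 | h3
      · obtain ⟨k, hk⟩ := ih h3
        exact ⟨k.castSucc, hk⟩
      · refine ⟨Fin.last n, h3, ?_⟩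
        rw [ps_succ] at h2
        exact h2

theorem disj (h : 0 < lam) (u : ℕ → ℤ) {i j : ℕ} {x : ℝ} (hi : ps lam u i ≤ x)
    (hi' : x < ps lam u i + lam ^ u i) (hj : ps lam u j ≤ x)
    (hj' : x < ps lam u j + lam ^ u j) : i = j := by
  rw [← ps_succ] at hi' hj'
  rcases lt_trichotomy i j with hij | hij | hij
  · have := ps_mono h u (show i + 1 ≤ j from hij)
    linarith
  · exact hij
  · have := ps_mono h u (show j + 1 ≤ i from hij)
    linarith

/-- equal sums of powers of `λ` give relations between multiples of the unit class -/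
theorem nsmul_of_ps {h : 0 < lam} {A : Type*} [CStarAlgebra A] (hQ : IsQ A lam h) (n m : ℕ) (u w : ℕ → ℤ)
    (e : ps lam u n = ps lam w m) : m • unitClass A = n • unitClass A := by
  refine nsmul_of_partitions hQ (fun k : Fin n => aff h (ps lam u k) (ps_mem u k) (u k))
    (fun k : Fin m => aff h (ps lam w k) (ps_mem w k) (w k)) ?_ ?_ ?_
  · intro i j x h1 h2
    rw [aff_inv_mem] at h1 h2
    exact Fin.ext (disj h u h1.1 h1.2 h2.1 h2.2)
  · intro i j x h1 h2
    rw [aff_inv_mem] at h1 h2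
    exact Fin.ext (disj h w h1.1 h1.2 h2.1 h2.2)
  · intro x
    simp only [aff_inv_mem]
    rw [cover h u n x, cover h w m x, e]

/-- polynomial relations as equalities of sums of powers -/
theorem poly_sums (lam : ℝ) (q : ℤ[X]) : ∃ (n m : ℕ) (u _ : Fin n → ℤ) (w : Fin m → ℤ),
    ∑ i, lam ^ u i - ∑ j, lam ^ w j = aeval lam q ∧ (n : ℤ) - m = q.eval 1 := by
  induction q using Polynomial.induction_on' with
  | add p q hp hq =>
    obtain ⟨n, m, u, _, w, h1, h2⟩ := hp
    obtain ⟨n', m', u', _, w', h1', h2'⟩ := hq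
    refine ⟨n + n', m + m', Fin.append u u', Fin.append u u', Fin.append w w', ?_, ?_⟩
    · rw [Fin.sum_univ_add, Fin.sum_univ_add, map_add, ← h1, ← h1']
      simp only [Fin.append_left, Fin.append_right]
      ring
    · rw [eval_add, ← h2, ← h2']
      push_cast
      ring
  | monomial i a =>
    rcases le_total 0 a with ha | ha
    · refine ⟨a.toNat, 0, fun _ => i, fun _ => i, fun _ => i, ?_, ?_⟩
      · simp only [Finset.sum_const, Finset.card_univ, Fintype.card_fin, aeval_monomial]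
        have : ((a.toNat : ℕ) : ℝ) = (a : ℝ) := by
          have := Int.toNat_of_nonneg ha
          exact_mod_cast this
        simp [this]
      · rw [eval_monomial, Int.toNat_of_nonneg ha]
        simp
    · refine ⟨0, (-a).toNat, fun _ => i, fun _ => i, fun _ => i, ?_, ?_⟩
      · simp only [Finset.sum_const, Finset.card_univ, Fintype.card_fin, aeval_monomial]
        have : (((-a).toNat : ℕ) : ℝ) = -(a : ℝ) := by
          have := Int.toNat_of_nonneg (show 0 ≤ -a by omega)
          exact_mod_cast this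
        simp [this]
      · rw [eval_monomial, Int.toNat_of_nonneg (by omega)]
        simp

/-- If `f(λ) = 0` then `f(1) [1]_0 = 0`. -/
theorem eval_one_smul {h : 0 < lam} {A : Type*} [CStarAlgebra A] (hQ : IsQ A lam h) (f : ℤ[X])
    (hf : aeval lam f = 0) : (f.eval 1) • unitClass A = 0 := by
  obtain ⟨n, m, u, _, w, h1, h2⟩ := poly_sums lam f
  rw [hf, sub_eq_zero] at h1
  have key := nsmul_of_ps hQ n m (fun j => if hj : j < n then u ⟨j, hj⟩ else 0)
    (fun j => if hj : j < m then w ⟨j, hj⟩ else 0) (by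
      unfold ps
      rw [Finset.sum_range, Finset.sum_range]
      simpa using h1)
  rw [← h2, sub_smul, natCast_zsmul, natCast_zsmul, key, sub_self]

/-- an algebraic number different from `1` is a root of an integer polynomial with `f(1) ≠ 0` -/
theorem exists_poly (halg : IsAlgebraic ℚ lam) (h1 : lam ≠ 1) :
    ∃ f : ℤ[X], aeval lam f = 0 ∧ f.eval 1 ≠ 0 := by
  obtain ⟨p, hp, hp0⟩ := (IsFractionRing.isAlgebraic_iff ℤ ℚ ℝ).2 halg
  obtain ⟨q, hq, hq1⟩ := Polynomial.exists_eq_pow_rootMultiplicity_mul_and_not_dvd p hp 1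
  refine ⟨q, ?_, ?_⟩
  · rw [hq, map_mul, map_pow] at hp0
    rcases mul_eq_zero.1 hp0 with h2 | h2
    · exfalso
      have h3 := eq_zero_of_pow_eq_zero h2
      simp only [map_sub, aeval_X, map_one, sub_eq_zero] at h3
      exact h1 h3
    · exact h2
  · intro h2
    exact hq1 (Polynomial.dvd_iff_isRoot.2 h2)

/-- the unit class has finite order -/
theorem torsion {h : 0 < lam} {A : Type*} [CStarAlgebra A] (hQ : IsQ A lam h) (halg : IsAlgebraic ℚ lam)
    (h1 : lam ≠ 1) : ∃ N : ℕ, 0 < N ∧ N • unitClass A = 0 := by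
  obtain ⟨f, hf, hf1⟩ := exists_poly halg h1
  refine ⟨(f.eval 1).natAbs, Int.natAbs_pos.2 hf1, ?_⟩
  have h2 := eval_one_smul hQ f hf
  rw [← natCast_zsmul]
  rcases Int.natAbs_eq (f.eval 1) with h3 | h3
  · rw [← h3]; exact h2
  · rw [h3, neg_smul, neg_eq_zero] at h2
    exact h2

end Pool.Agent.QLam
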